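import Mathlib
import Pool.Agent.Lib.MP_286abe_co.Defs
import Pool.Agent.Lib.MP_286abe_co.Carousel

/-!
# MP_286abe_co, Q1: the carousel homomorphism maximises the density of every carousel tournament

Proof. Call an odd set of vertices positive if the skew-symmetric sign matrix of the induced
tournament has a kernel vector with positive entries; the vertex sets of the copies of `R_{2n+1}`
are positive. Every nonempty set of vertices contains exactly one positive set which beats all
its other vertices (the support of the optimal strategy; Fisher and Ryan). Counting sets by their
supports and using the Chu-Vandermonde identity one gets, for odd `m` and every integer `s`,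
`∑ C(d(W) - s, m - |W|) = C(N - s, m) - C(-s, m)`, the sum being over the positive sets `W` of
size at most `m`, where `d(W)` is the number of vertices beaten by `W`. As `m - |W|` is even, all
terms are nonnegative, so that there are at most `C(N - s, m) + C(s + m - 1, m)` positive sets of
size `m`. For `s = N / 2` this gives the density `2 ^ (1 - m)`.
-/

namespace Pool.Agent.Results.MP_286abe_co.CarouselMaximum

open Pool.Agent.Lib.MP_286abe_co

/-- The sequence of carousel tournaments converges to the carousel homomorphism, and for every `n`
the maximum of the density of `R_{2n+1}` over all limits of tournaments is its density in the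
carousel homomorphism. -/
theorem result : ConvergesTo (fun m => 2 * m + 1) carousel carouselLimit ∧
    ∀ n : ℕ, IsGreatest {x : ℝ | ∃ φ ∈ limits, x = φ (2 * n + 1) (carousel n)}
      (carouselLimit (2 * n + 1) (carousel n)) := by
  refine ⟨carousel_convergesTo, fun n => ⟨⟨carouselLimit, ?_, rfl⟩, ?_⟩⟩
  · exact ⟨fun m => 2 * m + 1, carousel, carousel_convergesTo⟩
  · rintro x ⟨φ, ⟨N, U, hU⟩, rfl⟩
    exact (limit_carousel_le hU n).trans (carouselLimit_ge n)

end Pool.Agent.Results.MP_286abe_co.CarouselMaximum
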